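import Pool.Agent.R592.Ba.Smz

/-!
Project BAF, piece BAF-13: the weak axiom transfers from the real line to the Cantor space.
-/

open Cardinal Set Pool.Agent.R592.Ba

namespace Pool.Agent.R83.Ba

/-- binary digits of a point -/
def dig (x : X) : ℕ → Fin 2 := fun n => if x n then 1 else 0

/-- the number with given binary digits -/
noncomputable def r (x : X) : ℝ := Real.ofDigits (dig x)

theorem continuous_r : Continuous r := by
  refine Real.continuous_ofDigits.comp (continuous_pi fun n => ?_)
  exact (continuous_of_discreteTopology (f := fun b : Bool => if b then (1 : Fin 2) else 0)).comp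
    (continuous_apply n)

theorem r_nonneg (x : X) : 0 ≤ r x := Real.ofDigits_nonneg _

theorem r_le_one (x : X) : r x ≤ 1 := Real.ofDigits_le_one _

theorem r_surj {t : ℝ} (ht : t ∈ Icc (0 : ℝ) 1) : ∃ x, r x = t := by
  obtain ⟨d, -, hd⟩ := Real.ofDigits_SurjOn (b := 2) (by norm_num) ht
  refine ⟨fun n => decide (d n = 1), ?_⟩
  rw [← hd]
  unfold r
  congr 1
  funext n
  unfold dig
  by_cases h : d n = 1
  · simp [h]
  · simp only [h, decide_false]
    have := (d n).2
    have h2 : (d n : ℕ) ≠ 1 := fun h3 => h (Fin.ext h3)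
    apply Fin.ext
    simp
    omega

theorem r_step (x : X) : r x = (if x 0 then 1 / 2 else 0) + r (fun i => x (i + 1)) / 2 := by
  have h := Real.ofDigits_eq_sum_add_ofDigits (dig x) 1
  have h2 : (fun i => dig x (i + 1)) = dig (fun i => x (i + 1)) := rfl
  rw [h2] at h
  unfold r
  rw [h]
  cases hx : x 0 with
  | true => simp [Real.ofDigitsTerm, dig, hx]; ring
  | false => simp [Real.ofDigitsTerm, dig, hx]; ring

theorem r_zero : ∀ (n : ℕ) (x : X), r x = 0 → x n = false ∧ r (fun i => x (i + 1)) = 0 := by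
  have key : ∀ x : X, r x = 0 → x 0 = false ∧ r (fun i => x (i + 1)) = 0 := by
    intro x hx
    have h := r_step x
    have h1 := r_nonneg (fun i => x (i + 1))
    rw [hx] at h
    cases h0 : x 0 with
    | true => rw [h0] at h; simp at h; linarith
    | false => rw [h0] at h; simp at h; exact ⟨rfl, by linarith⟩
  intro n
  induction n with
  | zero => exact key
  | succ n ih =>
    intro x hx
    have h := key x hx
    exact ⟨(ih _ h.2).1, h.2⟩

theorem r_one : ∀ (n : ℕ) (x : X), r x = 1 → x n = true ∧ r (fun i => x (i + 1)) = 1 := by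
  have key : ∀ x : X, r x = 1 → x 0 = true ∧ r (fun i => x (i + 1)) = 1 := by
    intro x hx
    have h := r_step x
    have h1 := r_le_one (fun i => x (i + 1))
    rw [hx] at h
    cases h0 : x 0 with
    | true => rw [h0] at h; simp at h; exact ⟨rfl, by linarith⟩
    | false => rw [h0] at h; simp at h; linarith
  intro n
  induction n with
  | zero => exact key
  | succ n ih =>
    intro x hx
    have h := key x hx
    exact ⟨(ih _ h.2).1, h.2⟩

/-- eventually constant points -/
def EC : Set X := {x | ∃ (N : ℕ) (b : Bool), ∀ n ≥ N, x n = b}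

theorem amb : ∀ (n : ℕ) (x y : X), r x = r y → x n ≠ y n → x ∈ EC := by
  have key : ∀ x y : X, r x = r y → x 0 ≠ y 0 → x ∈ EC := by
    intro x y h hne
    have hx := r_step x
    have hy := r_step y
    have a0 := r_nonneg (fun i => x (i + 1))
    have a1 := r_le_one (fun i => x (i + 1))
    have b0 := r_nonneg (fun i => y (i + 1))
    have b1 := r_le_one (fun i => y (i + 1))
    cases h0 : x 0 with
    | true =>
      have h0' : y 0 = false := by
        cases h1 : y 0 with
        | true => exact absurd (h0.trans h1.symm) hne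
        | false => rfl
      rw [h0] at hx; rw [h0'] at hy; simp at hx hy
      have hz : r (fun i => x (i + 1)) = 0 := by linarith
      refine ⟨1, false, fun n hn => ?_⟩
      have : x (n - 1 + 1) = false := (r_zero (n - 1) _ hz).1
      rwa [show n - 1 + 1 = n by omega] at this
    | false =>
      have h0' : y 0 = true := by
        cases h1 : y 0 with
        | false => exact absurd (h0.trans h1.symm) hne
        | true => rfl
      rw [h0] at hx; rw [h0'] at hy; simp at hx hy
      have hz : r (fun i => x (i + 1)) = 1 := by linarith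
      refine ⟨1, true, fun n hn => ?_⟩
      have : x (n - 1 + 1) = true := (r_one (n - 1) _ hz).1
      rwa [show n - 1 + 1 = n by omega] at this
  intro n
  induction n with
  | zero => exact key
  | succ n ih =>
    intro x y h hne
    by_cases h0 : x 0 = y 0
    · have hx := r_step x
      have hy := r_step y
      rw [h0] at hx
      have h' : r (fun i => x (i + 1)) = r (fun i => y (i + 1)) := by linarith
      obtain ⟨N, b, hN⟩ := ih _ _ h' hne
      refine ⟨N + 1, b, fun m hm => ?_⟩
      have : x (m - 1 + 1) = b := hN (m - 1) (by omega)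
      rwa [show m - 1 + 1 = m by omega] at this
    · exact key x y h h0

theorem r_inj {x y : X} (hx : x ∉ EC) (h : r x = r y) : x = y := by
  by_contra hne
  obtain ⟨n, hn⟩ := Function.ne_iff.1 hne
  exact hx (amb n x y h hn)

theorem EC_countable : EC.Countable := by
  have h : EC ⊆ range (fun p : List Bool × Bool => (fun i => p.1.getD i p.2 : X)) := by
    rintro x ⟨N, b, hN⟩
    refine ⟨((List.range N).map x, b), ?_⟩
    funext i
    simp only [List.getD_eq_getElem?_getD]
    by_cases hi : i < N
    · simp [hi]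
    · have h1 : N ≤ i := by omega
      rw [hN i h1]
      simp [h1]
  exact (countable_range _).mono h

/-- translation by `z` -/
def xorH (z : X) : X ≃ₜ X where
  toFun x := fun n => xor (x n) (z n)
  invFun x := fun n => xor (x n) (z n)
  left_inv x := by
    funext n
    simp
  right_inv x := by
    funext n
    simp
  continuous_toFun := continuous_pi fun n =>
    (continuous_of_discreteTopology (f := fun b : Bool => xor b (z n))).comp (continuous_apply n)
  continuous_invFun := continuous_pi fun n =>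
    (continuous_of_discreteTopology (f := fun b : Bool => xor b (z n))).comp (continuous_apply n)

theorem exists_shift {κ : Cardinal.{0}} (hκ : κ < 𝔠)
    {A : Set X} (hA : #A = κ) : ∃ z : X, xorH z '' A ⊆ ECᶜ := by
  have h1 : #(image2 (fun a q : X => (fun n => xor (a n) (q n) : X)) A EC) < #X := by
    have hX : #X = 𝔠 := by
      simp [X]
    rw [hX]
    refine lt_of_le_of_lt mk_image2_le ?_
    refine mul_lt_of_lt aleph0_le_continuum (by rwa [hA]) ?_
    exact lt_of_le_of_lt (le_aleph0_iff_set_countable.2 EC_countable) aleph0_lt_continuum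
  obtain ⟨z, hz⟩ : ∃ z : X, z ∉ image2 (fun a q : X => (fun n => xor (a n) (q n) : X)) A EC := by
    by_contra hcon
    push Not at hcon
    rw [eq_univ_of_forall hcon, mk_univ] at h1
    exact lt_irrefl _ h1
  refine ⟨z, ?_⟩
  rintro _ ⟨a, ha, rfl⟩
  intro hcon
  refine hz ⟨a, ha, xorH z a, hcon, ?_⟩
  funext n
  simp [xorH]

theorem mk_of_kdense {Y : Type} [TopologicalSpace Y] [Nonempty Y] {κ : Cardinal.{0}} {A : Set Y}
    (h : KDense κ A) : #A = κ := by
  have := h univ isOpen_univ univ_nonempty
  rwa [inter_univ] at this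

theorem kdense_image {Y Z : Type} [TopologicalSpace Y] [TopologicalSpace Z] {κ : Cardinal.{0}}
    {A : Set Y} (φ : Y ≃ₜ Z) (h : KDense κ A) : KDense κ (φ '' A) := by
  intro U hU hne
  have h1 : φ '' A ∩ U = φ '' (A ∩ φ ⁻¹' U) := (image_inter_preimage φ A U).symm
  rw [h1, mk_image_eq φ.injective]
  refine h _ (hU.preimage φ.continuous) ?_
  obtain ⟨u, hu⟩ := hne
  exact ⟨φ.symm u, by simpa using hu⟩

/-- rescaled digits map -/
noncomputable def rho (x : X) : ℝ := Real.pi * (r x - 1 / 2)

theorem continuous_rho : Continuous rho := by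
  unfold rho
  exact continuous_const.mul (continuous_r.sub continuous_const)

/-- an open embedding of the line with range an interval -/
noncomputable def g (t : ℝ) : ℝ := (Real.tanOrderIso.symm.toHomeomorph t : ℝ)

theorem g_emb : Topology.IsOpenEmbedding g :=
  (isOpen_Ioo.isOpenEmbedding_subtypeVal).comp Real.tanOrderIso.symm.toHomeomorph.isOpenEmbedding

theorem g_range : range g = Ioo (-(Real.pi / 2)) (Real.pi / 2) := by
  have : g = Subtype.val ∘ Real.tanOrderIso.symm.toHomeomorph := rfl
  rw [this, range_comp, Real.tanOrderIso.symm.toHomeomorph.surjective.range_eq, image_univ,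
    Subtype.range_val]

theorem rho_mem {x : X} (hx : x ∉ EC) : rho x ∈ range g := by
  rw [g_range]
  have h0 : r x ≠ 0 := fun h => hx ⟨0, false, fun n _ => (r_zero n x h).1⟩
  have h1 : r x ≠ 1 := fun h => hx ⟨0, true, fun n _ => (r_one n x h).1⟩
  have h2 : 0 < r x := lt_of_le_of_ne (r_nonneg x) h0.symm
  have h3 : r x < 1 := lt_of_le_of_ne (r_le_one x) h1
  have hp := Real.pi_pos
  unfold rho
  constructor <;> nlinarith

theorem rho_inj {x y : X} (hx : x ∉ EC) (h : rho x = rho y) : x = y := by
  apply r_inj hx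
  unfold rho at h
  have := mul_left_cancel₀ Real.pi_ne_zero h
  linarith

theorem rho_surj {t : ℝ} (ht : t ∈ range g) : ∃ x, rho x = t := by
  rw [g_range] at ht
  have hp := Real.pi_pos
  obtain ⟨x, hx⟩ := r_surj (t := t / Real.pi + 1 / 2) ⟨by
      have : -(1 / 2) ≤ t / Real.pi := by
        rw [le_div_iff₀ hp]; linarith [ht.1]
      linarith, by
      have : t / Real.pi ≤ 1 / 2 := by
        rw [div_le_iff₀ hp]; linarith [ht.2]
      linarith⟩
  refine ⟨x, ?_⟩
  unfold rho
  rw [hx]
  field_simp
  ring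

/-- a set of points that are not eventually constant is homeomorphic to its image -/
theorem homeo_rho {E : Set X} (hE : E ⊆ ECᶜ) : Nonempty (E ≃ₜ (rho '' E : Set ℝ)) := by
  have hsat : rho ⁻¹' (rho '' E) = E := by
    apply Subset.antisymm
    · rintro x ⟨y, hy, hxy⟩
      have := rho_inj (hE hy) hxy
      rwa [← this]
    · exact subset_preimage_image _ _
  have hcl : IsClosedMap ((rho '' E).restrictPreimage rho) :=
    continuous_rho.isClosedMap.restrictPreimage _
  have hco : Continuous ((rho '' E).restrictPreimage rho) := continuous_rho.restrictPreimage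
  have hbij : Function.Bijective ((rho '' E).restrictPreimage rho) := by
    constructor
    · rintro ⟨x, hx⟩ ⟨y, hy⟩ h
      have h1 : rho x = rho y := congrArg Subtype.val h
      rw [hsat] at hx
      exact Subtype.ext (rho_inj (hE hx) h1)
    · rintro ⟨t, x, hx, rfl⟩
      exact ⟨⟨x, ⟨x, hx, rfl⟩⟩, rfl⟩
  have hh : IsHomeomorph ((rho '' E).restrictPreimage rho) :=
    isHomeomorph_iff_continuous_isClosedMap_bijective.2 ⟨hco, hcl, hbij⟩
  exact ⟨(Homeomorph.setCongr hsat).symm.trans (hh.homeomorph _)⟩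

/-- a subset of the range of `g` is homeomorphic to its preimage -/
theorem homeo_g {T : Set ℝ} (hT : T ⊆ range g) : Nonempty (T ≃ₜ (g ⁻¹' T : Set ℝ)) := by
  have h1 : Topology.IsEmbedding (g ∘ (Subtype.val : (g ⁻¹' T : Set ℝ) → ℝ)) :=
    g_emb.isEmbedding.comp Topology.IsEmbedding.subtypeVal
  have h2 : range (g ∘ (Subtype.val : (g ⁻¹' T : Set ℝ) → ℝ)) = T := by
    rw [range_comp, Subtype.range_val, image_preimage_eq_iff]
    exact hT
  exact ⟨((Homeomorph.setCongr h2).symm.trans h1.toHomeomorph.symm)⟩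

theorem kdense_real {κ : Cardinal.{0}} {E : Set X} (hE : E ⊆ ECᶜ) (h : KDense κ E) :
    KDense κ (g ⁻¹' (rho '' E)) := by
  intro U hU hne
  have hV : IsOpen (g '' U) := g_emb.isOpenMap U hU
  have h1 : g '' (g ⁻¹' (rho '' E) ∩ U) = rho '' (E ∩ rho ⁻¹' (g '' U)) := by
    ext t
    constructor
    · rintro ⟨u, ⟨⟨x, hx, hxu⟩, hu⟩, rfl⟩
      exact ⟨x, ⟨hx, ⟨u, hu, hxu.symm⟩⟩, hxu⟩
    · rintro ⟨x, ⟨hx, ⟨u, hu, hux⟩⟩, rfl⟩
      exact ⟨u, ⟨⟨x, hx, hux.symm⟩, hu⟩, hux⟩
  rw [← mk_image_eq g_emb.injective, h1, mk_image_eq_of_injOn]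
  · refine h _ (hV.preimage continuous_rho) ?_
    obtain ⟨u, hu⟩ := hne
    obtain ⟨x, hx⟩ := rho_surj (t := g u) ⟨u, rfl⟩
    exact ⟨x, ⟨u, hu, hx.symm⟩⟩
  · intro x hx y _ hxy
    exact rho_inj (hE hx.1) hxy

theorem transfer {κ : Cardinal.{0}} (hκ : κ < 𝔠) {A : Set X} (hA : KDense κ A) :
    ∃ A' : Set ℝ, KDense κ A' ∧ Nonempty (A ≃ₜ A') := by
  obtain ⟨z, hz⟩ := exists_shift hκ (mk_of_kdense hA)
  refine ⟨g ⁻¹' (rho '' (xorH z '' A)), kdense_real hz (kdense_image (xorH z) hA), ?_⟩
  obtain ⟨a⟩ := homeo_rho hz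
  have hT : rho '' (xorH z '' A) ⊆ range g := by
    rintro _ ⟨x, hx, rfl⟩
    exact rho_mem (hz hx)
  obtain ⟨b⟩ := homeo_g hT
  exact ⟨(((xorH z).image A).trans a).trans b⟩

theorem rToX : RtoX := by
  intro κ hκ hR A B hA hB
  obtain ⟨A', hA', ⟨a⟩⟩ := transfer hκ hA
  obtain ⟨B', hB', ⟨b⟩⟩ := transfer hκ hB
  obtain ⟨c⟩ := hR A' B' hA' hB'
  exact ⟨(a.trans c).trans b.symm⟩

end Pool.Agent.R83.Ba
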